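import Mathlib

/-!
# The Hantzsche-Wendt (Promislow) group

We realise the group inside the third power of the infinite dihedral group and record the two facts
that are used: its nonidentity elements are covered by six subsemigroups not containing the
identity, and it has two elements with the relations that exclude a left order.
-/

set_option autoImplicit false

namespace Pool.Agent.Helper70_Cov

/-- The infinite dihedral group: maps `t ↦ s t + a` of the integers. -/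
@[ext] structure Dih where
  /-- the sign -/
  s : ℤˣ
  /-- the translation part -/
  a : ℤ
deriving DecidableEq

namespace Dih

instance : Mul Dih := ⟨fun g h => ⟨g.s * h.s, g.a + (g.s : ℤ) * h.a⟩⟩
instance : One Dih := ⟨⟨1, 0⟩⟩
instance : Inv Dih := ⟨fun g => ⟨g.s⁻¹, -(((g.s⁻¹ : ℤˣ) : ℤ) * g.a)⟩⟩

@[simp] theorem mul_s (g h : Dih) : (g * h).s = g.s * h.s := rfl
@[simp] theorem mul_a (g h : Dih) : (g * h).a = g.a + (g.s : ℤ) * h.a := rfl
@[simp] theorem one_s : (1 : Dih).s = 1 := rfl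
@[simp] theorem one_a : (1 : Dih).a = 0 := rfl
@[simp] theorem inv_s (g : Dih) : (g⁻¹).s = g.s⁻¹ := rfl
@[simp] theorem inv_a (g : Dih) : (g⁻¹).a = -(((g.s⁻¹ : ℤˣ) : ℤ) * g.a) := rfl

instance : Group Dih :=
  Group.ofLeftAxioms
    (fun g h k => by
      ext
      · simp [mul_assoc]
      · simp only [mul_a, mul_s, Units.val_mul]; ring)
    (fun g => by ext <;> simp)
    (fun g => by ext <;> simp)

/-- the sign homomorphism -/
def sgn : Dih →* ℤˣ where
  toFun g := g.s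
  map_one' := rfl
  map_mul' _ _ := rfl

/-- the parity homomorphism -/
def par : Dih →* ℤˣ where
  toFun g := (-1) ^ g.a
  map_one' := by simp
  map_mul' g h := by
    rw [mul_a, zpow_add]
    congr 1
    rcases Int.units_eq_one_or g.s with hs | hs <;> simp [hs]

@[simp] theorem sgn_apply (g : Dih) : sgn g = g.s := rfl
@[simp] theorem par_apply (g : Dih) : par g = (-1) ^ g.a := rfl

end Dih

/-- The Hantzsche-Wendt group. -/
def HW : Subgroup (Dih × Dih × Dih) where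
  carrier := {g | g.1.sgn * g.2.1.sgn * g.2.2.sgn = 1 ∧ g.1.par = g.2.1.sgn ∧
    g.2.1.par = g.2.2.sgn ∧ g.2.2.par = g.1.sgn}
  one_mem' := by simp
  mul_mem' := by
    rintro ⟨a, b, c⟩ ⟨a', b', c'⟩ ⟨h1, h2, h3, h4⟩ ⟨h1', h2', h3', h4'⟩
    refine ⟨?_, ?_, ?_, ?_⟩
    · simp only [Prod.mk_mul_mk, map_mul] at *
      calc a.sgn * a'.sgn * (b.sgn * b'.sgn) * (c.sgn * c'.sgn)
          = (a.sgn * b.sgn * c.sgn) * (a'.sgn * b'.sgn * c'.sgn) := by
            simp only [mul_comm, mul_left_comm]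
        _ = 1 := by rw [h1, h1', one_mul]
    · simp only [Prod.mk_mul_mk, map_mul] at *; rw [h2, h2']
    · simp only [Prod.mk_mul_mk, map_mul] at *; rw [h3, h3']
    · simp only [Prod.mk_mul_mk, map_mul] at *; rw [h4, h4']
  inv_mem' := by
    rintro ⟨a, b, c⟩ ⟨h1, h2, h3, h4⟩
    refine ⟨?_, ?_, ?_, ?_⟩
    · simp only [Prod.inv_mk, map_inv] at *
      rw [← mul_inv, ← mul_inv, h1, inv_one]
    · simp only [Prod.inv_mk, map_inv] at *; rw [h2]
    · simp only [Prod.inv_mk, map_inv] at *; rw [h3]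
    · simp only [Prod.inv_mk, map_inv] at *; rw [h4]

/-- the three coordinates -/
def coord (i : Fin 3) (g : HW) : Dih := ![g.1.1, g.1.2.1, g.1.2.2] i

theorem coord_mul (i : Fin 3) (g h : HW) : coord i (g * h) = coord i g * coord i h := by
  fin_cases i <;> rfl

theorem coord_one (i : Fin 3) : coord i 1 = 1 := by
  fin_cases i <;> rfl

/-- the six semigroups -/
def T (i : Fin 3 × ℤˣ) : Set HW := {g | (coord i.1 g).s = 1 ∧ 0 < (i.2 : ℤ) * (coord i.1 g).a}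

theorem T_mul (i : Fin 3 × ℤˣ) {g h : HW} (hg : g ∈ T i) (hh : h ∈ T i) : g * h ∈ T i := by
  obtain ⟨h1, h2⟩ := hg
  obtain ⟨h3, h4⟩ := hh
  refine ⟨?_, ?_⟩
  · rw [coord_mul, Dih.mul_s, h1, h3, one_mul]
  · rw [coord_mul, Dih.mul_a, h1]
    simp only [Units.val_one, one_mul]
    rw [mul_add]
    exact add_pos h2 h4

theorem T_one (i : Fin 3 × ℤˣ) : (1 : HW) ∉ T i := by
  rintro ⟨-, h2⟩
  rw [coord_one] at h2
  simp at h2

theorem sign_cases {a : ℤ} (ha : a ≠ 0) : ∃ e : ℤˣ, 0 < (e : ℤ) * a := by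
  rcases lt_or_gt_of_ne ha with h | h
  · exact ⟨-1, by simpa using h⟩
  · exact ⟨1, by simpa using h⟩

theorem odd_ne {a : ℤ} (h : ((-1 : ℤˣ)) ^ a = -1) : a ≠ 0 := by
  rintro rfl
  simp at h

theorem T_cover (g : HW) (hg : g ≠ 1) : ∃ i, g ∈ T i := by
  obtain ⟨⟨a, b, c⟩, h1, h2, h3, h4⟩ := g
  simp only [Dih.sgn_apply, Dih.par_apply] at h1 h2 h3 h4
  have key : (a.s = 1 ∧ a.a ≠ 0) ∨ (b.s = 1 ∧ b.a ≠ 0) ∨ (c.s = 1 ∧ c.a ≠ 0) := by
    by_contra hcon
    push Not at hcon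
    obtain ⟨ka, kb, kc⟩ := hcon
    rcases Int.units_eq_one_or a.s with ha | ha <;> rcases Int.units_eq_one_or b.s with hb | hb <;>
      rcases Int.units_eq_one_or c.s with hc | hc <;> rw [ha, hb, hc] at h1
    · apply hg
      apply Subtype.ext
      have e1 : a = 1 := Dih.ext ha (ka ha)
      have e2 : b = 1 := Dih.ext hb (kb hb)
      have e3 : c = 1 := Dih.ext hc (kc hc)
      simp only [e1, e2, e3]; rfl
    · simp at h1
    · simp at h1
    · rw [hb] at h2; exact odd_ne h2 (ka ha)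
    · simp at h1
    · rw [hc] at h3; exact odd_ne h3 (kb hb)
    · rw [ha] at h4; exact odd_ne h4 (kc hc)
    · simp at h1
  rcases key with ⟨hs, ha⟩ | ⟨hs, ha⟩ | ⟨hs, ha⟩
  · obtain ⟨e, he⟩ := sign_cases ha
    exact ⟨(0, e), hs, he⟩
  · obtain ⟨e, he⟩ := sign_cases ha
    exact ⟨(1, e), hs, he⟩
  · obtain ⟨e, he⟩ := sign_cases ha
    exact ⟨(2, e), hs, he⟩

/-- first generator -/
def gx : HW := ⟨(⟨1, 1⟩, ⟨-1, 1⟩, ⟨-1, 0⟩), by
  refine ⟨?_, ?_, ?_, ?_⟩ <;> simp⟩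

/-- second generator -/
def gy : HW := ⟨(⟨-1, 0⟩, ⟨1, 1⟩, ⟨-1, 1⟩), by
  refine ⟨?_, ?_, ?_, ?_⟩ <;> simp⟩

theorem gx_ne : gx ≠ 1 := by
  intro h
  have := congrArg (fun g : HW => g.1.1.a) h
  simp [gx] at this

/-- The relations excluding a left order. -/
theorem rel (X Y : HW) (hX : X = gx ∨ X = gx⁻¹) (hY : Y = gy ∨ Y = gy⁻¹) :
    X * (Y * X * Y * Y * X * Y * X) = 1 := by
  rcases hX with rfl | rfl <;> rcases hY with rfl | rfl <;>
  · apply Subtype.ext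
    refine Prod.ext ?_ (Prod.ext ?_ ?_) <;>
    · apply Dih.ext
      · simp [gx, gy]
      · simp [gx, gy]

theorem T_nonempty (i : Fin 3 × ℤˣ) : (T i).Nonempty := by
  obtain ⟨i, e⟩ := i
  fin_cases i
  · refine ⟨⟨(⟨1, 2 * e⟩, ⟨1, 0⟩, ⟨1, 0⟩), ?_⟩, ?_⟩
    · refine ⟨?_, ?_, ?_, ?_⟩ <;> rcases Int.units_eq_one_or e with rfl | rfl <;> simp [zpow_ofNat]
    · refine ⟨rfl, ?_⟩
      rcases Int.units_eq_one_or e with rfl | rfl <;> simp [coord]
  · refine ⟨⟨(⟨1, 0⟩, ⟨1, 2 * e⟩, ⟨1, 0⟩), ?_⟩, ?_⟩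
    · refine ⟨?_, ?_, ?_, ?_⟩ <;> rcases Int.units_eq_one_or e with rfl | rfl <;> simp [zpow_ofNat]
    · refine ⟨rfl, ?_⟩
      rcases Int.units_eq_one_or e with rfl | rfl <;> simp [coord]
  · refine ⟨⟨(⟨1, 0⟩, ⟨1, 0⟩, ⟨1, 2 * e⟩), ?_⟩, ?_⟩
    · refine ⟨?_, ?_, ?_, ?_⟩ <;> rcases Int.units_eq_one_or e with rfl | rfl <;> simp [zpow_ofNat]
    · refine ⟨rfl, ?_⟩
      rcases Int.units_eq_one_or e with rfl | rfl <;> simp [coord]

end Pool.Agent.Helper70_Cov
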