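import Mathlib

/-!
# The tower group

For a group `L` we consider the set `M L` of finitely supported functions `ℕ → L`, ordered
lexicographically from above, and the group `Gr L` of all permutations of bounded support which
preserve the lexicographic structure.
-/

set_option autoImplicit false

namespace Pool.Agent.Helper70_Cov

variable (L : Type) [Group L]

/-- finitely supported functions `ℕ → L` -/
abbrev M : Type := {x : ℕ → L // ∃ k, ∀ j, k ≤ j → x j = 1}

variable {L}

/-- the base point -/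
def x0 : M L := ⟨fun _ => 1, 0, fun _ _ => rfl⟩

@[simp] theorem x0_apply (j : ℕ) : (x0 : M L).1 j = 1 := rfl

/-- agreement above level `j` -/
def Agree (j : ℕ) (x y : M L) : Prop := ∀ i, j < i → x.1 i = y.1 i

/-- lexicographic structure is preserved -/
def Pres (g : M L → M L) : Prop := ∀ x y j, Agree j x y →
  Agree j (g x) (g y) ∧ ((g x).1 j)⁻¹ * (g y).1 j = (x.1 j)⁻¹ * y.1 j

/-- the map is the identity outside the functions supported below `k` -/
def Bnd (k : ℕ) (g : M L → M L) : Prop := ∀ x, (∃ j, k ≤ j ∧ x.1 j ≠ 1) → g x = x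

theorem Pres.comp {f g : M L → M L} (hf : Pres f) (hg : Pres g) : Pres (f ∘ g) := by
  intro x y j h
  obtain ⟨h1, h2⟩ := hg x y j h
  obtain ⟨h3, h4⟩ := hf _ _ j h1
  exact ⟨h3, h4.trans h2⟩

theorem Bnd.mono {k l : ℕ} (h : k ≤ l) {g : M L → M L} (hg : Bnd k g) : Bnd l g := by
  rintro x ⟨j, hj, hx⟩
  exact hg x ⟨j, h.trans hj, hx⟩

theorem Bnd.comp {k : ℕ} {f g : M L → M L} (hf : Bnd k f) (hg : Bnd k g) : Bnd k (f ∘ g) := by
  intro x hx
  change f (g x) = x
  rw [hg x hx, hf x hx]

theorem Bnd.symm {k : ℕ} {g : Equiv.Perm (M L)} (hg : Bnd k g) : Bnd k g.symm := by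
  intro x hx
  rw [Equiv.symm_apply_eq, hg x hx]

variable (L)

/-- the tower group -/
def Gr : Subgroup (Equiv.Perm (M L)) where
  carrier := {g | Pres g ∧ Pres g.symm ∧ ∃ k, Bnd k g}
  one_mem' := ⟨fun _ _ _ h => ⟨h, rfl⟩, fun _ _ _ h => ⟨h, rfl⟩, 0, fun _ _ => rfl⟩
  mul_mem' := by
    rintro f g ⟨h1, h2, k, h3⟩ ⟨h1', h2', k', h3'⟩
    refine ⟨h1.comp h1', h2'.comp h2, max k k', ?_⟩
    exact (h3.mono (le_max_left k k')).comp (h3'.mono (le_max_right k k'))
  inv_mem' := by
    rintro g ⟨h1, h2, k, h3⟩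
    exact ⟨h2, h1, k, h3.symm⟩

variable {L}

/-- agreement above `j` and value in `T` at `j` -/
def Lt (T : Set L) (x y : M L) : Prop := ∃ j, Agree j x y ∧ (x.1 j)⁻¹ * y.1 j ∈ T

theorem Agree.trans' {i j : ℕ} {x y z : M L} (h1 : Agree i x y) (h2 : Agree j y z) :
    Agree (max i j) x z := fun k hk =>
  (h1 k ((le_max_left i j).trans_lt hk)).trans (h2 k ((le_max_right i j).trans_lt hk))

theorem Lt.trans {T : Set L} (hT : ∀ a ∈ T, ∀ b ∈ T, a * b ∈ T) {x y z : M L} (h1 : Lt T x y)
    (h2 : Lt T y z) : Lt T x z := by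
  obtain ⟨i, hi, hi'⟩ := h1
  obtain ⟨j, hj, hj'⟩ := h2
  rcases lt_trichotomy i j with h | h | h
  · refine ⟨j, ?_, ?_⟩
    · have := hi.trans' hj; rwa [max_eq_right h.le] at this
    · rwa [hi j h]
  · subst h
    refine ⟨i, ?_, ?_⟩
    · have := hi.trans' hj; rwa [max_self] at this
    · have := hT _ hi' _ hj'
      rwa [mul_assoc, mul_inv_cancel_left] at this
  · refine ⟨i, ?_, ?_⟩
    · have := hi.trans' hj; rwa [max_eq_left h.le] at this
    · rwa [← hj i h]

theorem Lt.map {T : Set L} {g : M L → M L} (hg : Pres g) {x y : M L} (h : Lt T x y) :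
    Lt T (g x) (g y) := by
  obtain ⟨j, h1, h2⟩ := h
  obtain ⟨h3, h4⟩ := hg x y j h1
  exact ⟨j, h3, by rwa [h4]⟩

theorem Lt.irrefl {T : Set L} (hT : (1 : L) ∉ T) (x : M L) : ¬ Lt T x x := by
  rintro ⟨j, -, h⟩
  rw [inv_mul_cancel] at h
  exact hT h

/-- two different points have a highest level at which they differ -/
theorem exists_top {x y : M L} (h : x ≠ y) : ∃ j, Agree j x y ∧ (x.1 j)⁻¹ * y.1 j ≠ 1 := by
  obtain ⟨k, hk⟩ := x.2
  obtain ⟨l, hl⟩ := y.2
  have hex : ∃ j, x.1 j ≠ y.1 j := by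
    by_contra hcon
    push Not at hcon
    exact h (Subtype.ext (funext hcon))
  have hfin : {j | x.1 j ≠ y.1 j}.Finite := by
    refine (Set.finite_Iio (max k l)).subset fun j hj => ?_
    by_contra hcon
    have hcon' : max k l ≤ j := not_lt.mp hcon
    exact hj ((hk j ((le_max_left _ _).trans hcon')).trans (hl j ((le_max_right _ _).trans hcon')).symm)
  obtain ⟨j, hj, hmax⟩ := hfin.exists_maximal (s := {j | x.1 j ≠ y.1 j}) hex
  refine ⟨j, fun i hi => ?_, ?_⟩
  · by_contra hcon
    exact absurd (hmax hcon hi.le) (not_le.mpr hi)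
  · rw [Ne, inv_mul_eq_one]
    exact hj

theorem exists_lt {ι : Type*} (T : ι → Set L) (hT : ∀ g : L, g ≠ 1 → ∃ i, g ∈ T i) {x y : M L}
    (h : x ≠ y) : ∃ i, Lt (T i) x y := by
  obtain ⟨j, h1, h2⟩ := exists_top h
  obtain ⟨i, hi⟩ := hT _ h2
  exact ⟨i, j, h1, hi⟩

/-- the subsemigroup attached to a strict cone -/
def Sg (T : Set L) (hT : ∀ a ∈ T, ∀ b ∈ T, a * b ∈ T) : Subsemigroup (Gr L) where
  carrier := {g | g.1 x0 = x0 ∨ Lt T x0 (g.1 x0)}
  mul_mem' := by
    rintro g h hg hh
    have e : (g * h).1 x0 = g.1 (h.1 x0) := rfl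
    simp only [Set.mem_ofPred_eq] at *
    rw [e]
    rcases hh with hh | hh
    · rw [hh]; exact hg
    · right
      have := hh.map g.2.1
      rcases hg with hg | hg
      · rwa [hg] at this
      · exact hg.trans hT this

theorem mem_Sg {T : Set L} {hT : ∀ a ∈ T, ∀ b ∈ T, a * b ∈ T} {g : Gr L} :
    g ∈ Sg T hT ↔ g.1 x0 = x0 ∨ Lt T x0 (g.1 x0) := Iff.rfl

/-! ### Left multiplication at a level -/

open Classical in
/-- left multiplication by `l` at level `k` -/
noncomputable def lamFun (k : ℕ) (l : L) (x : M L) : M L :=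
  ⟨fun j => if j = k ∧ ∀ i, k < i → x.1 i = 1 then l * x.1 j else x.1 j, by
    obtain ⟨m, hm⟩ := x.2
    refine ⟨max m (k + 1), fun j hj => ?_⟩
    beta_reduce
    rw [if_neg]
    · exact hm j ((le_max_left _ _).trans hj)
    · rintro ⟨rfl, -⟩
      have := (le_max_right m (j + 1)).trans hj
      omega⟩

theorem lamFun_same {k : ℕ} {l : L} {x : M L} (h : ∀ i, k < i → x.1 i = 1) :
    (lamFun k l x).1 k = l * x.1 k := by
  simp only [lamFun]; rw [if_pos ⟨rfl, h⟩]

theorem lamFun_ne {k : ℕ} {l : L} {x : M L} {j : ℕ} (h : j ≠ k) :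
    (lamFun k l x).1 j = x.1 j := by
  simp only [lamFun]; rw [if_neg]; exact fun h' => h h'.1

theorem lamFun_out {k : ℕ} {l : L} {x : M L} (h : ¬ ∀ i, k < i → x.1 i = 1) :
    lamFun k l x = x := by
  apply Subtype.ext
  funext j
  simp only [lamFun]; rw [if_neg]; exact fun h' => h h'.2

theorem lamFun_mul (k : ℕ) (l m : L) (x : M L) : lamFun k (l * m) x = lamFun k l (lamFun k m x) := by
  by_cases h : ∀ i, k < i → x.1 i = 1
  · have h' : ∀ i, k < i → (lamFun k m x).1 i = 1 := fun i hi => by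
      rw [lamFun_ne hi.ne']; exact h i hi
    apply Subtype.ext
    funext j
    by_cases hj : j = k
    · subst hj
      rw [lamFun_same h, lamFun_same h', lamFun_same h, mul_assoc]
    · rw [lamFun_ne hj, lamFun_ne hj, lamFun_ne hj]
  · rw [lamFun_out h, lamFun_out h, lamFun_out h]

theorem lamFun_one (k : ℕ) (x : M L) : lamFun k 1 x = x := by
  by_cases h : ∀ i, k < i → x.1 i = 1
  · apply Subtype.ext
    funext j
    by_cases hj : j = k
    · subst hj
      rw [lamFun_same h, one_mul]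
    · rw [lamFun_ne hj]
  · exact lamFun_out h

theorem lamFun_pres (k : ℕ) (l : L) : Pres (lamFun k l) := by
  intro x y j h
  by_cases hx : ∀ i, k < i → x.1 i = 1
  swap
  · rw [lamFun_out hx]
    by_cases hy : ∀ i, k < i → y.1 i = 1
    · -- here `j > k`
      have hj : k < j := by
        by_contra hcon
        push Not at hcon
        exact hx fun i hi => (h i (hcon.trans_lt hi)).trans (hy i hi)
      refine ⟨fun i hi => ?_, ?_⟩
      · rw [lamFun_ne (hj.trans hi).ne']; exact h i hi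
      · rw [lamFun_ne hj.ne']
    · rw [lamFun_out hy]; exact ⟨h, rfl⟩
  by_cases hy : ∀ i, k < i → y.1 i = 1
  swap
  · rw [lamFun_out hy]
    have hj : k < j := by
      by_contra hcon
      push Not at hcon
      exact hy fun i hi => (h i (hcon.trans_lt hi)).symm.trans (hx i hi)
    refine ⟨fun i hi => ?_, ?_⟩
    · rw [lamFun_ne (hj.trans hi).ne']; exact h i hi
    · rw [lamFun_ne hj.ne']
  refine ⟨fun i hi => ?_, ?_⟩
  · by_cases hik : i = k
    · subst hik
      rw [lamFun_same hx, lamFun_same hy, h i hi]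
    · rw [lamFun_ne hik, lamFun_ne hik, h i hi]
  · by_cases hjk : j = k
    · subst hjk
      rw [lamFun_same hx, lamFun_same hy]
      group
    · rw [lamFun_ne hjk, lamFun_ne hjk]

theorem lamFun_bnd (k : ℕ) (l : L) : Bnd (k + 1) (lamFun k l) := by
  rintro x ⟨j, hj, hx⟩
  exact lamFun_out fun h => hx (h j hj)

/-- left multiplication at level `k` as a homomorphism -/
noncomputable def lam (k : ℕ) : L →* Gr L where
  toFun l := ⟨{ toFun := lamFun k l
                invFun := lamFun k l⁻¹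
                left_inv := fun x => by rw [← lamFun_mul, inv_mul_cancel, lamFun_one]
                right_inv := fun x => by rw [← lamFun_mul, mul_inv_cancel, lamFun_one] },
    lamFun_pres k l, lamFun_pres k l⁻¹, k + 1, lamFun_bnd k l⟩
  map_one' := by
    apply Subtype.ext
    apply Equiv.ext
    intro x
    exact lamFun_one k x
  map_mul' l m := by
    apply Subtype.ext
    apply Equiv.ext
    intro x
    exact lamFun_mul k l m x

theorem lam_apply (k : ℕ) (l : L) (x : M L) : (lam k l).1 x = lamFun k l x := rfl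

theorem Sg_ne_top {T : Set L} {hT : ∀ a ∈ T, ∀ b ∈ T, a * b ∈ T} (h1 : (1 : L) ∉ T)
    (hne : T.Nonempty) : Sg T hT ≠ ⊤ := by
  obtain ⟨l, hl⟩ := hne
  intro htop
  have hmem : lam 0 l⁻¹ ∈ Sg T hT := by rw [htop]; trivial
  have hx : ∀ i, 0 < i → (x0 : M L).1 i = 1 := fun _ _ => rfl
  have hval : ((lam 0 l⁻¹).1 x0).1 0 = l⁻¹ := by
    rw [lam_apply, lamFun_same hx]; simp
  have hl1 : l ≠ 1 := fun h => h1 (h ▸ hl)
  rcases mem_Sg.mp hmem with h | ⟨j, hj, hj'⟩
  · rw [h] at hval
    exact hl1 (by simpa using hval.symm)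
  · by_cases hj0 : j = 0
    · subst hj0
      rw [hval] at hj'
      simp only [x0_apply, inv_one, one_mul] at hj'
      exact h1 (by simpa using hT _ hl _ hj')
    · rw [lam_apply, lamFun_ne hj0] at hj'
      simp only [x0_apply, inv_one, one_mul] at hj'
      exact h1 hj'

theorem Sg_cover {ι : Type*} (T : ι → Set L) (hT : ∀ i, ∀ a ∈ T i, ∀ b ∈ T i, a * b ∈ T i)
    (hcov : ∀ g : L, g ≠ 1 → ∃ i, g ∈ T i) [Nonempty ι] (g : Gr L) : ∃ i, g ∈ Sg (T i) (hT i) := by
  by_cases h : g.1 x0 = x0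
  · exact ⟨Classical.arbitrary ι, Or.inl h⟩
  · obtain ⟨i, hi⟩ := exists_lt T hcov (Ne.symm h)
    exact ⟨i, Or.inr hi⟩

/-! ### The shift trick -/

/-- cut off all levels from `k` on -/
def cut (k : ℕ) (x : M L) : M L :=
  ⟨fun j => if j < k then x.1 j else 1, k, fun j hj => by simp [not_lt.mpr hj]⟩

theorem cut_lt {k j : ℕ} (h : j < k) (x : M L) : (cut k x).1 j = x.1 j := by
  simp [cut, h]

theorem cut_ge {k j : ℕ} (h : k ≤ j) (x : M L) : (cut k x).1 j = 1 := by
  simp [cut, not_lt.mpr h]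

theorem cut_eq {k : ℕ} {x : M L} (h : ∀ j, k ≤ j → x.1 j = 1) : cut k x = x := by
  apply Subtype.ext
  funext j
  rcases lt_or_ge j k with hj | hj
  · exact cut_lt hj x
  · rw [cut_ge hj, h j hj]

/-- a map with support below `k` preserves the functions with support below `k` -/
theorem Bnd.low {k : ℕ} {g : Equiv.Perm (M L)} (hg : Bnd k g) {x : M L}
    (hx : ∀ j, k ≤ j → x.1 j = 1) : ∀ j, k ≤ j → (g x).1 j = 1 := by
  intro j hj
  by_contra hcon
  have h1 : g (g x) = g x := hg (g x) ⟨j, hj, hcon⟩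
  have h2 : g x = x := g.injective h1
  rw [h2] at hcon
  exact hcon (hx j hj)

/-- the condition under which the shifted copy acts -/
def Cnd (k : ℕ) (A : Set L) (x : M L) : Prop := x.1 k ∈ A ∧ ∀ i, k < i → x.1 i = 1

open Classical in
/-- act by `w` on the levels below `k`, on all slices whose level `k` value is in `A` -/
noncomputable def slFun (k : ℕ) (A : Set L) (w : M L → M L) (x : M L) : M L :=
  ⟨fun j => if j < k ∧ Cnd k A x then (w (cut k x)).1 j else x.1 j, by
    obtain ⟨m, hm⟩ := x.2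
    refine ⟨max m k, fun j hj => ?_⟩
    beta_reduce
    rw [if_neg]
    · exact hm j ((le_max_left _ _).trans hj)
    · rintro ⟨h, -⟩
      exact absurd ((le_max_right m k).trans hj) (not_le.mpr h)⟩

theorem slFun_lt {k : ℕ} {A : Set L} {w : M L → M L} {x : M L} {j : ℕ} (hj : j < k)
    (h : Cnd k A x) : (slFun k A w x).1 j = (w (cut k x)).1 j := by
  simp only [slFun]; rw [if_pos ⟨hj, h⟩]

theorem slFun_ge {k : ℕ} {A : Set L} {w : M L → M L} {x : M L} {j : ℕ} (hj : k ≤ j) :
    (slFun k A w x).1 j = x.1 j := by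
  simp only [slFun]; rw [if_neg]; exact fun h' => absurd hj (not_le.mpr h'.1)

theorem slFun_out {k : ℕ} {A : Set L} {w : M L → M L} {x : M L} (h : ¬ Cnd k A x) :
    slFun k A w x = x := by
  apply Subtype.ext
  funext j
  simp only [slFun]; rw [if_neg]; exact fun h' => h h'.2

theorem Cnd_slFun {k : ℕ} {A : Set L} {w : M L → M L} {x : M L} (h : Cnd k A x) :
    Cnd k A (slFun k A w x) := by
  refine ⟨?_, fun i hi => ?_⟩
  · rw [slFun_ge le_rfl]; exact h.1
  · rw [slFun_ge hi.le]; exact h.2 i hi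

theorem cut_slFun {k : ℕ} {A : Set L} {w : Equiv.Perm (M L)} (hw : Bnd k w) {x : M L}
    (h : Cnd k A x) : cut k (slFun k A w x) = w (cut k x) := by
  apply Subtype.ext
  funext j
  rcases lt_or_ge j k with hj | hj
  · rw [cut_lt hj, slFun_lt hj h]
  · rw [cut_ge hj, hw.low (fun i hi => cut_ge hi x) j hj]

theorem slFun_inv {k : ℕ} {A : Set L} {w : Equiv.Perm (M L)} (hw : Bnd k w) (x : M L) :
    slFun k A w.symm (slFun k A w x) = x := by
  by_cases h : Cnd k A x
  · apply Subtype.ext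
    funext j
    rcases lt_or_ge j k with hj | hj
    · rw [slFun_lt hj (Cnd_slFun h), cut_slFun hw h, Equiv.symm_apply_apply, cut_lt hj]
    · rw [slFun_ge hj, slFun_ge hj]
  · rw [slFun_out h, slFun_out h]

theorem slFun_pres {k : ℕ} {A : Set L} {w : M L → M L} (hw : Pres w) : Pres (slFun k A w) := by
  intro x y j h
  rcases lt_or_ge j k with hj | hj
  · have hc : Cnd k A x ↔ Cnd k A y := by
      unfold Cnd
      rw [h k hj]
      refine and_congr_right fun _ => forall_congr' fun i => ?_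
      refine imp_congr_right fun hi => ?_
      rw [h i (hj.trans hi)]
    by_cases hx : Cnd k A x
    · have hy := hc.mp hx
      have hcut : Agree j (cut k x) (cut k y) := by
        intro i hi
        rcases lt_or_ge i k with hik | hik
        · rw [cut_lt hik, cut_lt hik, h i hi]
        · rw [cut_ge hik, cut_ge hik]
      obtain ⟨h1, h2⟩ := hw _ _ j hcut
      refine ⟨fun i hi => ?_, ?_⟩
      · rcases lt_or_ge i k with hik | hik
        · rw [slFun_lt hik hx, slFun_lt hik hy, h1 i hi]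
        · rw [slFun_ge hik, slFun_ge hik, h i hi]
      · rw [slFun_lt hj hx, slFun_lt hj hy, h2, cut_lt hj, cut_lt hj]
    · have hy : ¬ Cnd k A y := fun hy => hx (hc.mpr hy)
      rw [slFun_out hx, slFun_out hy]
      exact ⟨h, rfl⟩
  · refine ⟨fun i hi => ?_, ?_⟩
    · rw [slFun_ge (hj.trans hi.le), slFun_ge (hj.trans hi.le), h i hi]
    · rw [slFun_ge hj, slFun_ge hj]

theorem slFun_bnd {k : ℕ} {A : Set L} {w : M L → M L} : Bnd (k + 1) (slFun k A w) := by
  rintro x ⟨j, hj, hx⟩
  exact slFun_out fun h => hx (h.2 j hj)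

/-- the slice-wise copy as an element of the tower group -/
noncomputable def sl (k : ℕ) (A : Set L) (w : Gr L) (hw : Bnd k w.1) : Gr L :=
  ⟨{ toFun := slFun k A w.1
     invFun := slFun k A w.1.symm
     left_inv := fun x => slFun_inv hw x
     right_inv := fun x => by
       have := slFun_inv (A := A) (w := w.1.symm) hw.symm x
       rwa [Equiv.symm_symm] at this },
   slFun_pres w.2.1, slFun_pres w.2.2.1, k + 1, slFun_bnd⟩

theorem sl_apply (k : ℕ) (A : Set L) (w : Gr L) (hw : Bnd k w.1) (x : M L) :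
    (sl k A w hw).1 x = slFun k A w.1 x := rfl

/-- **The shift trick**: every element of bounded support is a commutator with a left
multiplication at a high level. -/
theorem shift {t : L} (ht : ∀ n : ℕ, t ^ (n + 1) ≠ 1) {k : ℕ} {w : Gr L} (hw : Bnd k w.1) :
    ∃ v : Gr L, w = v * lam k t * v⁻¹ * (lam k t)⁻¹ := by
  set A : Set L := {l | ∃ n : ℕ, l = t ^ n} with hA
  refine ⟨sl k A w hw, ?_⟩
  rw [eq_mul_inv_iff_mul_eq, eq_mul_inv_iff_mul_eq]
  apply Subtype.ext
  apply Equiv.ext
  intro x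
  change w.1 ((lam k t).1 ((sl k A w hw).1 x)) = (sl k A w hw).1 ((lam k t).1 x)
  rw [lam_apply, lam_apply, sl_apply, sl_apply]
  by_cases hx : ∀ i, k < i → x.1 i = 1
  swap
  · have h1 : ¬ Cnd k A x := fun h => hx h.2
    rw [slFun_out h1, lamFun_out hx, slFun_out h1]
    push Not at hx
    obtain ⟨i, hi, hi'⟩ := hx
    exact hw x ⟨i, hi.le, hi'⟩
  have hcut : cut k (lamFun k t x) = cut k x := by
    apply Subtype.ext
    funext j
    rcases lt_or_ge j k with hj | hj
    · rw [cut_lt hj, cut_lt hj, lamFun_ne hj.ne]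
    · rw [cut_ge hj, cut_ge hj]
  have hx' : ∀ i, k < i → (lamFun k t x).1 i = 1 := fun i hi => by
    rw [lamFun_ne hi.ne']; exact hx i hi
  by_cases hc : Cnd k A x
  · obtain ⟨⟨n, hn⟩, -⟩ := hc
    have hc : Cnd k A x := ⟨⟨n, hn⟩, hx⟩
    have hsx : ∀ i, k < i → (slFun k A w.1 x).1 i = 1 := (Cnd_slFun hc).2
    have hc' : Cnd k A (lamFun k t x) := by
      refine ⟨⟨n + 1, ?_⟩, hx'⟩
      rw [lamFun_same hx, hn, pow_succ']
    have hval : (lamFun k t (slFun k A w.1 x)).1 k = t ^ (n + 1) := by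
      rw [lamFun_same hsx, slFun_ge le_rfl, hn, pow_succ']
    rw [hw _ ⟨k, le_rfl, by rw [hval]; exact ht n⟩]
    apply Subtype.ext
    funext j
    rcases lt_trichotomy j k with hj | hj | hj
    · rw [lamFun_ne hj.ne, slFun_lt hj hc, slFun_lt hj hc', hcut]
    · subst hj
      rw [hval, slFun_ge le_rfl, lamFun_same hx, hn, pow_succ']
    · rw [lamFun_ne hj.ne', slFun_ge hj.le, slFun_ge hj.le, lamFun_ne hj.ne']
  · rw [slFun_out hc]
    by_cases h1 : t * x.1 k = 1
    · have hval : (lamFun k t x).1 k = 1 := by rw [lamFun_same hx, h1]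
      have hc' : Cnd k A (lamFun k t x) := ⟨⟨0, by rw [hval, pow_zero]⟩, hx'⟩
      have hlow : ∀ j, k ≤ j → (lamFun k t x).1 j = 1 := fun j hj => by
        rcases hj.lt_or_eq with h | h
        · exact hx' j h
        · rw [← h]; exact hval
      apply Subtype.ext
      funext j
      rcases lt_or_ge j k with hj | hj
      · rw [slFun_lt hj hc', cut_eq hlow]
      · rw [slFun_ge hj, hlow j hj]
        exact hw.low hlow j hj
    · have hc' : ¬ Cnd k A (lamFun k t x) := by
        rintro ⟨⟨n, hn⟩, -⟩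
        rw [lamFun_same hx] at hn
        cases n with
        | zero => exact h1 (by simpa using hn)
        | succ n =>
          rw [pow_succ'] at hn
          exact hc ⟨⟨n, mul_left_cancel hn⟩, hx⟩
      rw [slFun_out hc']
      refine hw _ ⟨k, le_rfl, ?_⟩
      rw [lamFun_same hx]
      exact h1

/-- A normal subgroup meeting the left multiplications of every level in an element of infinite
order is everything. -/
theorem normal_eq_top (N : Subgroup (Gr L)) [N.Normal]
    (h : ∀ k, ∃ t : L, (∀ n : ℕ, t ^ (n + 1) ≠ 1) ∧ lam k t ∈ N) : N = ⊤ := by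
  rw [Subgroup.eq_top_iff']
  intro w
  obtain ⟨k, hk⟩ := w.2.2.2
  obtain ⟨t, ht, htN⟩ := h k
  obtain ⟨v, hv⟩ := shift ht hk
  rw [hv]
  exact N.mul_mem (Subgroup.Normal.conj_mem inferInstance _ htN v) (N.inv_mem htN)

end Pool.Agent.Helper70_Cov
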