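import Mathlib
import Pool.Agent.Helper70_Cov.Prom
import Pool.Agent.Helper70_Cov.Tower

/-!
# The tower group over the Hantzsche-Wendt group

It has no proper total subsemigroup and no proper subgroup of finite index, and it is the union of
six proper subsemigroups.
-/

set_option autoImplicit false

namespace Pool.Agent.Helper70_Cov

open Pointwise

/-- there is no proper subsemigroup `S` with `S ∪ S⁻¹ = G` -/
def NoTotal (G : Type) [Group G] : Prop :=
  ∀ S : Subsemigroup G, (∀ g : G, g ∈ S ∨ g⁻¹ ∈ S) → ∀ g, g ∈ S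

/-- there is no proper subgroup of finite index -/
def NoFin (G : Type) [Group G] : Prop := ∀ H : Subgroup G, H.FiniteIndex → H = ⊤

theorem HW_pow {g : HW} (hg : g ≠ 1) (n : ℕ) : g ^ (n + 1) ≠ 1 := by
  obtain ⟨i, hi⟩ := T_cover g hg
  have : g ^ (n + 1) ∈ T i := by
    induction n with
    | zero => simpa using hi
    | succ n ih => rw [pow_succ]; exact T_mul i ih hi
  intro h
  rw [h] at this
  exact T_one i this

theorem noFin_Gr : NoFin (Gr HW) := by
  intro H hH
  have hN : H.normalCore = ⊤ := by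
    apply normal_eq_top
    intro k
    obtain ⟨n, hn, -, hmem⟩ := Subgroup.exists_pow_mem_of_index_ne_zero
      (H := H.normalCore) Subgroup.FiniteIndex.index_ne_zero (lam k gx)
    refine ⟨gx ^ n, fun m => ?_, by rwa [map_pow]⟩
    obtain ⟨n, rfl⟩ := Nat.exists_eq_succ_of_ne_zero hn.ne'
    exact HW_pow (HW_pow gx_ne n) m
  rw [eq_top_iff, ← hN]
  exact H.normalCore_le

theorem noTotal_Gr : NoTotal (Gr HW) := by
  intro S hS
  have h1 : (1 : Gr HW) ∈ S := by
    rcases hS 1 with h | h
    · exact h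
    · simpa using h
  let H : Subgroup (Gr HW) :=
    { carrier := {g | g ∈ S ∧ g⁻¹ ∈ S}
      one_mem' := ⟨h1, by simpa using h1⟩
      mul_mem' := fun {a b} ha hb => ⟨S.mul_mem ha.1 hb.1, by
        rw [mul_inv_rev]; exact S.mul_mem hb.2 ha.2⟩
      inv_mem' := fun {a} ha => ⟨ha.2, by rw [inv_inv]; exact ha.1⟩ }
  have hmem : ∀ g : Gr HW, g ∈ H ↔ g ∈ S ∧ g⁻¹ ∈ S := fun g => Iff.rfl
  have key : ∀ k, lam k gx ∈ H.normalCore := by
    intro k g
    change g * lam k gx * g⁻¹ ∈ H
    set c : Gr HW →* Gr HW := (MulAut.conj g).toMonoidHom with hc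
    have hcx : ∀ l : HW, c (lam k l) = g * lam k l * g⁻¹ := fun l => rfl
    have hrel : ∀ X Y : HW, (X = gx ∨ X = gx⁻¹) → (Y = gy ∨ Y = gy⁻¹) → c (lam k X) ∈ S →
        c (lam k Y) ∈ S → c (lam k X) ∈ H := by
      intro X Y hX hY hXS hYS
      refine ⟨hXS, ?_⟩
      have h := congrArg (fun l => c (lam k l)) (rel X Y hX hY)
      simp only [map_mul, map_one] at h
      rw [mul_eq_one_iff_inv_eq] at h
      rw [h]
      refine S.mul_mem (S.mul_mem (S.mul_mem (S.mul_mem (S.mul_mem (S.mul_mem hYS hXS) hYS) hYS)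
        hXS) hYS) hXS
    have hY : ∃ Y : HW, (Y = gy ∨ Y = gy⁻¹) ∧ c (lam k Y) ∈ S := by
      rcases hS (c (lam k gy)) with h | h
      · exact ⟨gy, Or.inl rfl, h⟩
      · exact ⟨gy⁻¹, Or.inr rfl, by rwa [map_inv, map_inv]⟩
    obtain ⟨Y, hY, hYS⟩ := hY
    rcases hS (c (lam k gx)) with h | h
    · exact hrel gx Y (Or.inl rfl) hY h hYS
    · have h' : c (lam k gx⁻¹) ∈ S := by rwa [map_inv, map_inv]
      have := hrel gx⁻¹ Y (Or.inr rfl) hY h' hYS
      rw [map_inv, map_inv, inv_mem_iff] at this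
      exact this
  have hN : H.normalCore = ⊤ := by
    apply normal_eq_top
    intro k
    exact ⟨gx, fun m => HW_pow gx_ne m, key k⟩
  intro g
  have : g ∈ H.normalCore := by rw [hN]; trivial
  exact (H.normalCore_le this).1

/-- the six proper subsemigroups -/
noncomputable def six (i : Fin 3 × ℤˣ) : Subsemigroup (Gr HW) :=
  Sg (T i) (fun _ ha _ hb => T_mul i ha hb)

theorem six_ne_top (i : Fin 3 × ℤˣ) : six i ≠ ⊤ := Sg_ne_top (T_one i) (T_nonempty i)

theorem six_cover (g : Gr HW) : ∃ i, g ∈ six i :=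
  Sg_cover T (fun i _ ha _ hb => T_mul i ha hb) T_cover g

/-- two proper subsemigroups covering a group -/
theorem total_of_two {G : Type} [Group G] {A B : Subsemigroup G}
    (hc : ∀ g, g ∈ A ∨ g ∈ B) :
    (∀ g : G, g ∈ A ∨ g⁻¹ ∈ A) ∨ (∀ g : G, g ∈ B ∨ g⁻¹ ∈ B) := by
  by_cases h : ∃ a, a ∉ B ∧ a⁻¹ ∈ A
  · left
    obtain ⟨a, ha, ha'⟩ := h
    intro b
    by_contra hcon
    push Not at hcon
    obtain ⟨hb, hb'⟩ := hcon
    have hbB : b⁻¹ ∈ B := (hc b⁻¹).resolve_left hb'
    rcases hc (a * b) with h1 | h1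
    · apply hb
      have := A.mul_mem ha' h1
      rwa [inv_mul_cancel_left] at this
    · apply ha
      have := B.mul_mem h1 hbB
      rwa [mul_inv_cancel_right] at this
  · right
    push Not at h
    intro g
    by_cases hg : g ∈ B
    · exact Or.inl hg
    · exact Or.inr ((hc g⁻¹).resolve_left (h g hg))

theorem noTotal_prod {G F : Type} [Group G] [Group F] [Finite F] (hG : NoTotal G) :
    NoTotal (G × F) := by
  intro S hS
  have hpow : ∀ x ∈ S, ∀ n : ℕ, x ^ (n + 1) ∈ S := by
    intro x hx n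
    induction n with
    | zero => simpa using hx
    | succ n ih => rw [pow_succ]; exact S.mul_mem ih hx
  -- torsion elements
  have htor : ∀ f : F, ((1 : G), f) ∈ S := by
    intro f
    rcases hS (1, f) with h | h
    · exact h
    · have h2 : (1, f) = ((1, f)⁻¹ : G × F) ^ ((Nat.card F - 1) + (Nat.card F - 1 + 1) ) := by
        have hcard : 0 < Nat.card F := Nat.card_pos
        have e : (Nat.card F - 1) + (Nat.card F - 1 + 1) = Nat.card F * 2 - 1 := by omega
        rw [e]
        have h3 : f⁻¹ ^ (Nat.card F * 2 - 1) = f := by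
          rw [inv_pow, inv_eq_iff_mul_eq_one, ← pow_succ, Nat.sub_add_cancel (by omega), pow_mul,
            pow_card_eq_one', one_pow]
        ext
        · simp
        · simp only [Prod.inv_mk, Prod.pow_mk]; exact h3.symm
      rw [h2]
      exact hpow _ h _
  let SG : Subsemigroup G := S.comap (MonoidHom.inl G F)
  have hSG : ∀ g, g ∈ SG := by
    apply hG
    intro g
    rcases hS (g, 1) with h | h
    · exact Or.inl h
    · right
      have : ((g, (1 : F))⁻¹ : G × F) = (g⁻¹, 1) := by simp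
      rw [this] at h
      exact h
  rintro ⟨g, f⟩
  have := S.mul_mem (hSG g : (g, (1 : F)) ∈ S) (htor f)
  simpa using this

end Pool.Agent.Helper70_Cov
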